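import Pool.Agent.H.MP_a283c1_gt.A

namespace Pool.Agent.H.MP_a283c1_gt

def G (a b : ZMod 2) (s t : X) : X := (a * (s.2 + t.2), b * t.1)

lemma F_eq (i j : Fin 4) : F i j = G (ca i j) (cb i j) := rfl
lemma ca_comm : ∀ i j, ca i j = ca j i := by decide
lemma cb_comm : ∀ i j, cb i j = cb j i := by decide
lemma cab : ∀ i j, ca i j * cb i j = 0 := by decide
lemma cb3 : ∀ i j k, cb i j + cb i k + cb j k = 0 := by decide
lemma z2 : ∀ a : ZMod 2, a = 0 ∨ a = 1 := by decide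

lemma loc2 (a b o p : ZMod 2) (hab : a * b = 0) (s t x y z w : X)
    (h1 : x = G a b (s + o • y) (t + p • w)) (h2 : y = G a b (s + (1 + o) • x) (t + (1 + p) • z))
    (h3 : z = G a b (t + p • w) (s + o • y)) (h4 : w = G a b (t + (1 + p) • z) (s + (1 + o) • x)) :
    0 + 0 = x + y ∧ 0 + 0 = z + w := by
  obtain ⟨x1, x2⟩ := x
  obtain ⟨y1, y2⟩ := y
  obtain ⟨z1, z2'⟩ := z
  obtain ⟨w1, w2⟩ := w
  obtain ⟨s1, s2⟩ := s
  obtain ⟨t1, t2⟩ := t
  simp only [G, Prod.ext_iff, Prod.smul_mk, smul_eq_mul, Prod.mk_add_mk, Prod.fst_add,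
    Prod.snd_add, Prod.fst_zero, Prod.snd_zero] at *
  rcases z2 a with rfl | rfl <;> rcases z2 b with rfl | rfl <;> grind

lemma loc2' : ∀ (a b o p : ZMod 2), a * b = 0 → ∀ (s t : X),
    G a b s t = G a b (s + o • G a b s t) (t + p • G a b t s) := by
  decide

lemma loc3 (a1 b1 a2 b2 a3 b3 o p q : ZMod 2) (hab1 : a1 * b1 = 0) (hab2 : a2 * b2 = 0)
    (hab3 : a3 * b3 = 0) (hb : b1 + b2 + b3 = 0) (s t u xt yt xf zt yf zf : X)
    (h1 : xt = G a1 b1 (s + o • yt) (t + p • zt))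
    (h2 : xf = G a1 b1 (t + p • zt) (s + o • yt))
    (h3 : yt = G a2 b2 (s + (1 + o) • xt) (u + q • zf))
    (h4 : yf = G a2 b2 (u + q • zf) (s + (1 + o) • xt))
    (h5 : zt = G a3 b3 (t + (1 + p) • xf) (u + (1 + q) • yf))
    (h6 : zf = G a3 b3 (u + (1 + q) • yf) (t + (1 + p) • xf)) :
    ∃ xt' yt' xf' zt' yf' zf' : X, yt' + xt' = xt + yt ∧ zt' + xf' = xf + zt ∧ zf' + yf' = yf + zf ∧
      xt' = G a1 b1 (s + (1 + o) • yt') (t + (1 + p) • zt') ∧
      xf' = G a1 b1 (t + (1 + p) • zt') (s + (1 + o) • yt') ∧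
      yt' = G a2 b2 (s + o • xt') (u + (1 + q) • zf') ∧
      yf' = G a2 b2 (u + (1 + q) • zf') (s + o • xt') ∧
      zt' = G a3 b3 (t + p • xf') (u + q • yf') ∧
      zf' = G a3 b3 (u + q • yf') (t + p • xf') := by
  refine ⟨G a1 b1 (s + (1 + o) • yt) (t + (1 + p) • zt), G a2 b2 (s + o • xt) (u + (1 + q) • zf),
    G a1 b1 (t + (1 + p) • zt) (s + (1 + o) • yt), G a3 b3 (t + p • xf) (u + q • yf),
    G a2 b2 (u + (1 + q) • zf) (s + o • xt), G a3 b3 (u + q • yf) (t + p • xf), ?_⟩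
  obtain ⟨x1, x2⟩ := xt
  obtain ⟨y1, y2⟩ := yt
  obtain ⟨z1, z2'⟩ := zt
  obtain ⟨x3, x4⟩ := xf
  obtain ⟨y3, y4⟩ := yf
  obtain ⟨z3, z4⟩ := zf
  obtain ⟨s1, s2⟩ := s
  obtain ⟨t1, t2⟩ := t
  obtain ⟨u1, u2⟩ := u
  simp only [G, Prod.ext_iff, Prod.smul_mk, smul_eq_mul, Prod.mk_add_mk] at *
  rcases z2 a1 with rfl | rfl <;> rcases z2 b1 with rfl | rfl <;>
    rcases z2 a2 with rfl | rfl <;> rcases z2 b2 with rfl | rfl <;>
    rcases z2 a3 with rfl | rfl <;> rcases z2 b3 with rfl | rfl <;>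
    first | exact absurd hab1 (by decide) | exact absurd hab2 (by decide) |
      exact absurd hab3 (by decide) | exact absurd hb (by decide) | grind



lemma same_refl (W : Fin 4 → List Pt) (δ : Pt → X) (S : Pt → Prop) : Same W δ δ S :=
  ⟨fun _ _ _ => rfl, fun _ => rfl⟩

lemma Same.mono {W : Fin 4 → List Pt} {δ η : Pt → X} {S T : Pt → Prop} (h : Same W δ η S)
    (hST : ∀ e, S e → T e) : Same W δ η T :=
  ⟨fun j e he => h.1 j e fun h' => he (hST e h'), h.2⟩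

lemma F_self (i : Fin 4) (s t : X) : F i i s t = 0 := by simp [F, ca, cb]

lemma P_self {W : Fin 4 → List Pt} (hW : WF W) (c : ℕ) (i : Fin 4) (h1 : (c, true) ∈ W i)
    (h2 : (c, false) ∈ W i) : P W ↔ P (fun j => (W j).filter fun e => e.1 ≠ c) := by
  have h3 : ∀ e : Pt, e.1 = c → e ∈ W i := by
    rintro ⟨_, _ | _⟩ rfl <;> assumption
  constructor
  · rintro ⟨δ, hδ, h⟩
    refine P_filter _ δ hδ h ?_
    have : (fun e : Pt => if (decide (e.1 ≠ c)) = true then δ e else 0) = δ := by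
      funext e
      split_ifs with h4
      · rfl
      · have h5 : e.1 = c := by simpa using h4
        rw [hδ i i e (h3 e h5) (h3 _ h5), F_self]
    rw [this]
    exact same_refl _ _ _
  · intro h
    refine P_of_filter _ (fun _ => rfl) h fun δ hδ => ⟨δ, fun _ _ => rfl, same_refl _ _ _, ?_⟩
    intro j k e he he' h4
    have h5 : e.1 = c := by simpa using h4
    rw [hW.2 j i e he (h3 e h5), hW.2 k i _ he' (h3 _ h5), F_self, hδ e h4]

lemma same2 {W : Fin 4 → List Pt} {a1 b1 a2 b2 g1 g2 : Pt}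
    (H1 : ∀ δ η : Pt → X, (∀ e, e ≠ a1 → e ≠ b1 → η e = δ e) → η a1 + η b1 = δ a1 + δ b1 →
      Same W δ η (fun e => e = g1))
    (H2 : ∀ δ η : Pt → X, (∀ e, e ≠ a2 → e ≠ b2 → η e = δ e) → η a2 + η b2 = δ a2 + δ b2 →
      Same W δ η (fun e => e = g2))
    (n1 : a2 ≠ a1) (n2 : a2 ≠ b1) (n3 : b2 ≠ a1) (n4 : b2 ≠ b1) (δ η : Pt → X)
    (h : ∀ e, e ≠ a1 → e ≠ b1 → e ≠ a2 → e ≠ b2 → η e = δ e)
    (h1 : η a1 + η b1 = δ a1 + δ b1) (h2 : η a2 + η b2 = δ a2 + δ b2) :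
    Same W δ η (fun e => e = g1 ∨ e = g2) := by
  refine (H1 δ (fun e => if e = a1 ∨ e = b1 then η e else δ e) ?_ ?_).trans (H2 _ η ?_ ?_)
  · intro e h3 h4
    simp [h3, h4]
  · simpa using h1
  · intro e h3 h4
    by_cases h5 : e = a1 ∨ e = b1
    · simp only [if_pos h5]
    · simp only [if_neg h5]
      exact h e (fun h => h5 (Or.inl h)) (fun h => h5 (Or.inr h)) h3 h4
  · simpa [n1, n2, n3, n4] using h2

lemma P_r2 {W : Fin 4 → List Pt} (hW : WF W) (c d : ℕ)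
    (h1 : Adj W (c, true) (d, true)) (h2 : Adj W (c, false) (d, false)) :
    P W ↔ P (fun j => (W j).filter fun e => e.1 ≠ c ∧ e.1 ≠ d) := by
  obtain ⟨i, f1, g1, o, a1, a2, a3, a4, a5, a6, a7⟩ := adj_spec hW h1
  obtain ⟨j, f2, g2, p, b1, b2, b3, b4, b5, b6, b7⟩ := adj_spec hW h2
  have hS := same2 a7 b7 (by simp) (by simp) (by simp) (by simp)
  have hg : ∀ e : Pt, e = g1 ∨ e = g2 → decide (e.1 ≠ c ∧ e.1 ≠ d) = false := by
    rintro e (rfl | rfl)
    · rcases a4 with h | h <;> simp [h]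
    · rcases b4 with h | h <;> simp [h]
  have hk : ∀ e : Pt, e ≠ (c, true) → e ≠ (d, true) → e ≠ (c, false) → e ≠ (d, false) →
      e.1 ≠ c ∧ e.1 ≠ d := by
    rintro ⟨e, _ | _⟩ <;> simp +contextual
  constructor
  · rintro ⟨δ, hδ, h⟩
    refine P_filter _ δ hδ h ((hS δ _ ?_ ?_ ?_).mono hg)
    · intro e e1 e2 e3 e4
      simp [hk e e1 e2 e3 e4]
    all_goals
      have q1 := hδ i j _ a1 b1
      have q2 := hδ i j _ a2 b2
      have q3 := hδ j i _ b1 a1
      have q4 := hδ j i _ b2 a2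
      simp only [bar, Bool.not_true, Bool.not_false] at q1 q2 q3 q4
      rw [(a6 δ).1, (b6 δ).1, F_eq] at q1 q3
      rw [(a6 δ).2, (b6 δ).2, F_eq] at q2 q4
      rw [ca_comm j i, cb_comm j i] at q3 q4
      have := loc2 _ _ _ _ (cab i j) _ _ _ _ _ _ q1 q2 q3 q4
    · simpa using this.1
    · simpa using this.2
  · intro h
    refine P_of_filter _ (fun _ => rfl) h fun δ hδ => ?_
    obtain ⟨s, hs⟩ : ∃ s, s = pre δ f1 (W i) := ⟨_, rfl⟩
    obtain ⟨t, ht⟩ : ∃ t, t = pre δ f2 (W j) := ⟨_, rfl⟩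
    obtain ⟨η, hη⟩ : ∃ η : Pt → X, η = fun e => if e.1 = c ∨ e.1 = d then
      (if e.2 then G (ca i j) (cb i j) s t else G (ca i j) (cb i j) t s) else δ e := ⟨_, rfl⟩
    have e1 : η (c, true) = G (ca i j) (cb i j) s t := by simp [hη]
    have e2 : η (d, true) = G (ca i j) (cb i j) s t := by simp [hη]
    have e3 : η (c, false) = G (ca i j) (cb i j) t s := by simp [hη]
    have e4 : η (d, false) = G (ca i j) (cb i j) t s := by simp [hη]
    have xx : ∀ x : X, x + x = 0 + 0 := by decide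
    have hs2 := hS δ η (fun e e1 e2 e3 e4 => by simp [hη, hk e e1 e2 e3 e4])
      (by rw [e1, e2, hδ _ (by simp), hδ _ (by simp), xx])
      (by rw [e3, e4, hδ _ (by simp), hδ _ (by simp), xx])
    have hs' : pre η f1 (W i) = s := by
      rw [hs]
      refine hs2.1 _ _ ?_
      rintro (h | h)
      · exact a5 h
      · rcases a3 with h' | h' <;> rcases b4 with h'' | h'' <;> simp [h', h''] at h
    have ht' : pre η f2 (W j) = t := by
      rw [ht]
      refine hs2.1 _ _ ?_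
      rintro (h | h)
      · rcases b3 with h' | h' <;> rcases a4 with h'' | h'' <;> simp [h', h''] at h
      · exact b5 h
    refine ⟨η, fun a ha => ?_, hs2.mono hg, ?_⟩
    · have : a.1 ≠ c ∧ a.1 ≠ d := by simpa using ha
      simp [hη, this]
    · rintro i' j' ⟨e, b⟩ he he' h4
      have h5 : e = c ∨ e = d := by
        by_contra h6
        push Not at h6
        simp [h6] at h4
      rcases h5 with rfl | rfl <;> cases b <;>
        simp only [bar, Bool.not_true, Bool.not_false] at he' ⊢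
      · rw [hW.2 _ _ _ he b1, hW.2 _ _ _ he' a1, (a6 η).1, (b6 η).1, hs', ht', e3, e2, e4, F_eq,
          ca_comm j i, cb_comm j i]
        exact loc2' _ _ _ _ (cab i j) _ _
      · rw [hW.2 _ _ _ he a1, hW.2 _ _ _ he' b1, (a6 η).1, (b6 η).1, hs', ht', e1, e2, e4, F_eq]
        exact loc2' _ _ _ _ (cab i j) _ _
      · rw [hW.2 _ _ _ he b2, hW.2 _ _ _ he' a2, (a6 η).2, (b6 η).2, hs', ht', e4, e1, e3, F_eq,
          ca_comm j i, cb_comm j i]
        exact loc2' _ _ _ _ (cab i j) _ _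
      · rw [hW.2 _ _ _ he a2, hW.2 _ _ _ he' b2, (a6 η).2, (b6 η).2, hs', ht', e2, e1, e3, F_eq]
        exact loc2' _ _ _ _ (cab i j) _ _

def sw (x y z : ℕ) : Equiv.Perm Pt :=
  Equiv.swap (x, true) (y, true) * Equiv.swap (x, false) (z, true) * Equiv.swap (y, false) (z, false)

lemma sw_spec {x y z : ℕ} (hxy : x ≠ y) (hxz : x ≠ z) (hyz : y ≠ z) :
    sw x y z (x, true) = (y, true) ∧ sw x y z (y, true) = (x, true) ∧
    sw x y z (x, false) = (z, true) ∧ sw x y z (z, true) = (x, false) ∧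
    sw x y z (y, false) = (z, false) ∧ sw x y z (z, false) = (y, false) ∧
    ∀ e : Pt, e.1 ≠ x → e.1 ≠ y → e.1 ≠ z → sw x y z e = e := by
  have := hxy.symm
  have := hxz.symm
  have := hyz.symm
  refine ⟨?_, ?_, ?_, ?_, ?_, ?_, ?_⟩
  iterate 6 simp [sw, Equiv.swap_apply_def, *]
  rintro ⟨e, b⟩ h1 h2 h3
  simp only [] at h1 h2 h3
  simp [sw, Equiv.swap_apply_def, *]

lemma sw_sw {x y z : ℕ} (hxy : x ≠ y) (hxz : x ≠ z) (hyz : y ≠ z) (e : Pt) :
    sw x y z (sw x y z e) = e := by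
  obtain ⟨s1, s2, s3, s4, s5, s6, s7⟩ := sw_spec hxy hxz hyz
  obtain ⟨e, b⟩ := e
  by_cases h1 : e = x
  · subst h1; cases b <;> simp only [*]
  by_cases h2 : e = y
  · subst h2; cases b <;> simp only [*]
  by_cases h3 : e = z
  · subst h3; cases b <;> simp only [*]
  rw [s7 (e, b) h1 h2 h3, s7 (e, b) h1 h2 h3]

lemma P_r3 {W : Fin 4 → List Pt} (hW : WF W) {x y z : ℕ} (hxy : x ≠ y) (hxz : x ≠ z) (hyz : y ≠ z)
    (h1 : Adj W (x, true) (y, true)) (h2 : Adj W (x, false) (z, true))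
    (h3 : Adj W (y, false) (z, false)) (h : P W) : P (fun j => (W j).map (sw x y z)) := by
  obtain ⟨s1, s2, s3, s4, s5, s6, s7⟩ := sw_spec hxy hxz hyz
  have hyx := hxy.symm
  have hzx := hxz.symm
  have hzy := hyz.symm
  obtain ⟨i, f1, g1, o, a1, a2, a3, a4, a5, a6, a7⟩ := adj_spec hW h1
  obtain ⟨j, f2, g2, p, b1, b2, b3, b4, b5, b6, b7⟩ := adj_spec hW h2
  obtain ⟨k, f3, g3, q, c1, c2, c3, c4, c5, c6, c7⟩ := adj_spec hW h3
  obtain ⟨δ, hδ, i0, h⟩ := h
  have q1 := hδ i j _ a1 b1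
  have q2 := hδ j i _ b1 a1
  have q3 := hδ i k _ a2 c1
  have q4 := hδ k i _ c1 a2
  have q5 := hδ j k _ b2 c2
  have q6 := hδ k j _ c2 b2
  simp only [bar, Bool.not_true, Bool.not_false] at q1 q2 q3 q4 q5 q6
  rw [(a6 δ).1, (b6 δ).1, F_eq] at q1 q2
  rw [(a6 δ).2, (c6 δ).1, F_eq] at q3 q4
  rw [(b6 δ).2, (c6 δ).2, F_eq] at q5 q6
  rw [ca_comm j i, cb_comm j i] at q2
  rw [ca_comm k i, cb_comm k i] at q4
  rw [ca_comm k j, cb_comm k j] at q6
  obtain ⟨xt, yt, xf, zt, yf, zf, r1, r2, r3, r4, r5, r6, r7, r8, r9⟩ :=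
    loc3 _ _ _ _ _ _ _ _ _ (cab i j) (cab i k) (cab j k) (cb3 i j k) _ _ _ _ _ _ _ _ _
      q1 q2 q3 q4 q5 q6
  obtain ⟨η, hη⟩ : ∃ η : Pt → X, η = fun e => if e.1 = x then (if e.2 then yt else zt) else
    if e.1 = y then (if e.2 then xt else zf) else if e.1 = z then (if e.2 then xf else yf)
    else δ e := ⟨_, rfl⟩
  have e1 : η (x, true) = yt := by simp [hη]
  have e2 : η (y, true) = xt := by simp [hη, hyx]
  have e3 : η (x, false) = zt := by simp [hη]
  have e4 : η (z, true) = xf := by simp [hη, hzx, hzy]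
  have e5 : η (y, false) = zf := by simp [hη, hyx]
  have e6 : η (z, false) = yf := by simp [hη, hzx, hzy]
  have e7 : ∀ e : Pt, e.1 ≠ x → e.1 ≠ y → e.1 ≠ z → η e = δ e := fun e u1 u2 u3 => by
    simp [hη, u1, u2, u3]
  have hs : Same W δ η (fun e => (e = g1 ∨ e = g2) ∨ e = g3) := by
    refine (same2 a7 b7 (by simp) (by simp) (by simp [hzx]) (by simp [hzy]) δ
      (fun e => if e = (y, false) ∨ e = (z, false) then δ e else η e) ?_ ?_ ?_).trans
      (c7 _ η ?_ ?_)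
    · rintro ⟨e, b⟩ u1 u2 u3 u4
      split_ifs with u5
      · rfl
      · push Not at u5
        refine e7 _ ?_ ?_ ?_ <;> rintro (rfl : e = _) <;> cases b <;>
          first | exact u1 rfl | exact u2 rfl | exact u3 rfl | exact u4 rfl | exact u5.1 rfl |
            exact u5.2 rfl
    · simpa [e1, e2] using r1
    · simpa [e3, e4, hxy, hxz] using r2
    · intro e u1 u2
      simp [u1, u2]
    · simpa [e5, e6] using r3
  have t1 : pre η f1 (W i) = pre δ f1 (W i) := by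
    refine hs.1 _ _ ?_
    rintro ((h | h) | h)
    · exact a5 h
    · rcases a3 with h' | h' <;> rcases b4 with h'' | h'' <;> simp [h', h'', hxz, hyz] at h
    · rcases a3 with h' | h' <;> rcases c4 with h'' | h'' <;> simp [h', h''] at h
  have t2 : pre η f2 (W j) = pre δ f2 (W j) := by
    refine hs.1 _ _ ?_
    rintro ((h | h) | h)
    · rcases b3 with h' | h' <;> rcases a4 with h'' | h'' <;> simp [h', h'', hzx, hzy] at h
    · exact b5 h
    · rcases b3 with h' | h' <;> rcases c4 with h'' | h'' <;> simp [h', h'', hxy, hxz] at h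
  have t3 : pre η f3 (W k) = pre δ f3 (W k) := by
    refine hs.1 _ _ ?_
    rintro ((h | h) | h)
    · rcases c3 with h' | h' <;> rcases a4 with h'' | h'' <;> simp [h', h''] at h
    · rcases c3 with h' | h' <;> rcases b4 with h'' | h'' <;> simp [h', h'', hyx, hzx] at h
    · exact c5 h
  refine P_map _ η ?_ ⟨i0, by rwa [hs.2]⟩
  rintro i' j' ⟨e, b⟩ he e' he' h4
  have h5 : e' = sw x y z (bar (sw x y z (e, b))) := by rw [← h4, sw_sw hxy hxz hyz]
  by_cases u1 : e = x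
  · subst u1
    cases b <;> simp only [s1, s3, s5, s6, bar, Bool.not_true] at h5 <;> subst h5
    · rw [hW.2 _ _ _ he b1, hW.2 _ _ _ he' c1, (b6 η).1, (c6 η).1, t2, t3, e3, e4, e6, F_eq]
      exact r8
    · rw [hW.2 _ _ _ he a1, hW.2 _ _ _ he' c2, (a6 η).1, (c6 η).2, t1, t3, e1, e2, e5, F_eq]
      exact r6
  by_cases u2 : e = y
  · subst u2
    cases b <;> simp only [s2, s3, s4, s5, bar, Bool.not_true, Bool.not_false] at h5 <;> subst h5
    · rw [hW.2 _ _ _ he c1, hW.2 _ _ _ he' b1, (b6 η).1, (c6 η).1, t2, t3, e5, e4, e6, F_eq,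
        ca_comm k j, cb_comm k j]
      exact r9
    · rw [hW.2 _ _ _ he a2, hW.2 _ _ _ he' b2, (a6 η).2, (b6 η).2, t1, t2, e2, e1, e3, F_eq]
      exact r4
  by_cases u3 : e = z
  · subst u3
    cases b <;> simp only [s1, s2, s4, s6, bar, Bool.not_false] at h5 <;> subst h5
    · rw [hW.2 _ _ _ he c2, hW.2 _ _ _ he' a1, (a6 η).1, (c6 η).2, t1, t3, e6, e2, e5, F_eq,
        ca_comm k i, cb_comm k i]
      exact r7
    · rw [hW.2 _ _ _ he b2, hW.2 _ _ _ he' a2, (a6 η).2, (b6 η).2, t1, t2, e4, e1, e3, F_eq,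
        ca_comm j i, cb_comm j i]
      exact r5
  have hg : ∀ c : Bool, ¬ (((e, c) = g1 ∨ (e, c) = g2) ∨ (e, c) = g3) := by
    rintro c ((h | h) | h)
    · rcases a4 with h' | h' <;> simp [h', u1, u2] at h
    · rcases b4 with h' | h' <;> simp [h', u1, u3] at h
    · rcases c4 with h' | h' <;> simp [h', u2, u3] at h
  rw [s7 (e, b) u1 u2 u3, s7 (bar (e, b)) u1 u2 u3] at h5
  subst h5
  rw [e7 _ u1 u2 u3, hs.1 _ _ (hg b), hs.1 _ (bar (e, b)) (hg _)]
  exact hδ _ _ _ he he'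

lemma adj_map {W : Fin 4 → List Pt} (σ : Pt → Pt) {a b : Pt} (h1 : σ a = b) (h2 : σ b = a)
    (h : Adj W a b) : Adj (fun j => (W j).map σ) a b := by
  obtain ⟨i, u, v, h | h⟩ := h
  · exact ⟨i, u.map σ, v.map σ, Or.inr (by simp [h, h1, h2])⟩
  · exact ⟨i, u.map σ, v.map σ, Or.inl (by simp [h, h1, h2])⟩

lemma P_r3' {W : Fin 4 → List Pt} (hW : WF W) {x y z : ℕ} (hW' : WF fun j => (W j).map (sw x y z))
    (hxy : x ≠ y) (hxz : x ≠ z) (hyz : y ≠ z)
    (h1 : Adj W (x, true) (y, true)) (h2 : Adj W (x, false) (z, true))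
    (h3 : Adj W (y, false) (z, false)) : P W ↔ P (fun j => (W j).map (sw x y z)) := by
  refine ⟨P_r3 hW hxy hxz hyz h1 h2 h3, fun h => ?_⟩
  obtain ⟨s1, s2, s3, s4, s5, s6, -⟩ := sw_spec hxy hxz hyz
  have := P_r3 hW' hxy hxz hyz (adj_map _ s1 s2 h1) (adj_map _ s3 s4 h2) (adj_map _ s5 s6 h3) h
  have h5 : (sw x y z : Pt → Pt) ∘ sw x y z = id := funext (sw_sw hxy hxz hyz)
  simpa only [List.map_map, h5, List.map_id] using this

lemma P_iso {W : Fin 4 → List Pt} (f : Equiv.Perm ℕ) (h : P W) :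
    P (fun j => (W j).map (Prod.map f id)) := by
  obtain ⟨δ, hδ, h⟩ := h
  refine P_map (Equiv.prodCongr f (Equiv.refl _)) δ (fun i j e he e' he' h4 => ?_) h
  have : e' = bar e := (Equiv.prodCongr f (Equiv.refl _)).injective (h4.trans rfl)
  subst this
  exact hδ i j e he he'

lemma P_iso' {W : Fin 4 → List Pt} (f : Equiv.Perm ℕ) :
    P W ↔ P (fun j => (W j).map (Prod.map f id)) := by
  refine ⟨P_iso f, fun h => ?_⟩
  have := P_iso f.symm h
  have h5 : (Prod.map f.symm id : Pt → Pt) ∘ Prod.map f id = id := by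
    funext e; cases e; simp
  simpa only [List.map_map, h5, List.map_id] using this

end Pool.Agent.H.MP_a283c1_gt
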