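import Mathlib

namespace Pool.Agent.H.MP_a283c1_gt

abbrev Pt := ℕ × Bool
abbrev X := ZMod 2 × ZMod 2

def bar (e : Pt) : Pt := (e.1, !e.2)

def pre (δ : Pt → X) (e : Pt) : List Pt → X
  | [] => 0
  | a :: w => if a = e then 0 else δ a + pre δ e w

def ca (i j : Fin 4) : ZMod 2 := if i.val / 2 = j.val / 2 ∧ i ≠ j then 1 else 0
def cb (i j : Fin 4) : ZMod 2 := if i.val / 2 = j.val / 2 then 0 else 1

def F (i j : Fin 4) (s t : X) : X := (ca i j * (s.2 + t.2), cb i j * t.1)

def Cond (W : Fin 4 → List Pt) (δ : Pt → X) : Prop :=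
  ∀ i j, ∀ e ∈ W i, bar e ∈ W j → δ e = F i j (pre δ e (W i)) (pre δ (bar e) (W j))

def P (W : Fin 4 → List Pt) : Prop := ∃ δ, Cond W δ ∧ ∃ i, ((W i).map δ).sum ≠ 0

def WF (W : Fin 4 → List Pt) : Prop :=
  (∀ i, (W i).Nodup) ∧ ∀ i j e, e ∈ W i → e ∈ W j → i = j

def Adj (W : Fin 4 → List Pt) (a b : Pt) : Prop :=
  ∃ i u v, W i = u ++ a :: b :: v ∨ W i = u ++ b :: a :: v

def Same (W : Fin 4 → List Pt) (δ η : Pt → X) (S : Pt → Prop) : Prop :=
  (∀ j e, ¬ S e → pre η e (W j) = pre δ e (W j)) ∧ ∀ j, ((W j).map η).sum = ((W j).map δ).sum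

lemma pre_congr {δ η : Pt → X} (e : Pt) {w : List Pt} (h : ∀ a ∈ w, η a = δ a) :
    pre η e w = pre δ e w := by
  induction w with
  | nil => rfl
  | cons a w ih =>
    simp only [pre]
    rw [h a (by simp), ih fun b hb => h b (by simp [hb])]

lemma pre_append (δ : Pt → X) (e : Pt) (u v : List Pt) :
    pre δ e (u ++ v) = if e ∈ u then pre δ e u else (u.map δ).sum + pre δ e v := by
  induction u with
  | nil => simp
  | cons a u ih =>
    simp only [List.cons_append, pre, ih, List.mem_cons, List.map_cons, List.sum_cons]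
    by_cases h : a = e
    · simp [h]
    · have h' : ¬ e = a := fun h' => h h'.symm
      simp only [h, h', if_false, false_or]
      split_ifs
      · rfl
      · rw [add_assoc]

lemma pre_map (σ : Pt → Pt) (hσ : Function.Injective σ) (δ : Pt → X) (e : Pt) (w : List Pt) :
    pre δ (σ e) (w.map σ) = pre (δ ∘ σ) e w := by
  induction w with
  | nil => rfl
  | cons a w ih => simp only [List.map_cons, pre, ih, hσ.eq_iff, Function.comp]

lemma pre_filter (k : Pt → Bool) (δ : Pt → X) (hδ : ∀ a, k a = false → δ a = 0) (e : Pt)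
    (he : k e = true) (w : List Pt) : pre δ e (w.filter k) = pre δ e w := by
  induction w with
  | nil => rfl
  | cons a w ih =>
    cases h : k a
    · have : a ≠ e := fun h' => by simp [h', he] at h
      simp [h, pre, this, ih, hδ a h]
    · simp [h, pre, ih]

lemma sum_filter (k : Pt → Bool) (δ : Pt → X) (hδ : ∀ a, k a = false → δ a = 0) (w : List Pt) :
    ((w.filter k).map δ).sum = (w.map δ).sum := by
  induction w with
  | nil => rfl
  | cons a w ih =>
    cases h : k a
    · simp [h, ih, hδ a h]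
    · simp [h, ih]

lemma pre_zero {R : Pt → Pt → Prop} (δ : Pt → X) (e : Pt) {w : List Pt} (hw : w.Pairwise R)
    (he : e ∈ w) (h : ∀ a ∈ w, R a e → δ a = 0) : pre δ e w = 0 := by
  induction w with
  | nil => rfl
  | cons a w ih =>
    simp only [pre]
    split_ifs with h1
    · rfl
    · have he' : e ∈ w := by
        rcases List.mem_cons.1 he with h2 | h2
        · exact (h1 h2.symm).elim
        · exact h2
      rw [List.pairwise_cons] at hw
      rw [h a (by simp) (hw.1 e he'), ih hw.2 he' fun b hb => h b (by simp [hb]), add_zero]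

lemma adj1 {W : Fin 4 → List Pt} (hW : WF W) {a b : Pt} {i : Fin 4} {u v : List Pt}
    (h : W i = u ++ a :: b :: v) :
    (∀ δ, pre δ b (W i) = pre δ a (W i) + δ a) ∧
    ∀ δ η : Pt → X, (∀ e, e ≠ a → e ≠ b → η e = δ e) → η a + η b = δ a + δ b →
      Same W δ η (fun e => e = b) := by
  have hn := hW.1 i
  rw [h, List.nodup_append] at hn
  obtain ⟨-, h2, h3⟩ := hn
  have hau : a ∉ u := fun hh => h3 a hh a (by simp) rfl
  have hbu : b ∉ u := fun hh => h3 b hh b (by simp) rfl
  simp only [List.nodup_cons, List.mem_cons, not_or] at h2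
  obtain ⟨⟨hab, hav⟩, hbv, -⟩ := h2
  refine ⟨fun δ => ?_, fun δ η h4 h5 => ?_⟩
  · simp [h, pre_append, hau, hbu, pre, hab]
  have hu : ∀ e ∈ u, η e = δ e := fun e he =>
    h4 e (fun h' => hau (h' ▸ he)) (fun h' => hbu (h' ▸ he))
  have hv : ∀ e ∈ v, η e = δ e := fun e he =>
    h4 e (fun h' => hav (h' ▸ he)) (fun h' => hbv (h' ▸ he))
  have ho : ∀ j, j ≠ i → ∀ e ∈ W j, η e = δ e := fun j hj e he =>
    h4 e (fun h' => hj (hW.2 j i e he (by simp [h, h']))) (fun h' => hj (hW.2 j i e he (by simp [h, h'])))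
  refine ⟨fun j e he => ?_, fun j => ?_⟩
  · by_cases hj : j = i
    · subst hj
      have he' : ¬ b = e := fun h' => he h'.symm
      rw [h, pre_append, pre_append, pre_congr e hu, List.map_congr_left hu]
      simp only [pre, he', if_false, pre_congr e hv, ← add_assoc, h5]
    · exact pre_congr e (ho j hj)
  · by_cases hj : j = i
    · subst hj
      simp only [h, List.map_append, List.map_cons, List.sum_append, List.sum_cons,
        List.map_congr_left hu, List.map_congr_left hv, ← add_assoc]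
      rw [add_assoc _ (η a), h5, ← add_assoc]
    · rw [List.map_congr_left (ho j hj)]

lemma adj_spec {W : Fin 4 → List Pt} (hW : WF W) {a b : Pt} (h : Adj W a b) :
    ∃ (i : Fin 4) (f g : Pt) (o : ZMod 2), a ∈ W i ∧ b ∈ W i ∧ (f = a ∨ f = b) ∧ (g = a ∨ g = b) ∧
      f ≠ g ∧ (∀ δ, pre δ a (W i) = pre δ f (W i) + o • δ b ∧
        pre δ b (W i) = pre δ f (W i) + (1 + o) • δ a) ∧
      ∀ δ η : Pt → X, (∀ e, e ≠ a → e ≠ b → η e = δ e) → η a + η b = δ a + δ b →
        Same W δ η (fun e => e = g) := by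
  obtain ⟨i, u, v, h | h⟩ := h
  · obtain ⟨h1, h2⟩ := adj1 hW h
    refine ⟨i, a, b, 0, by simp [h], by simp [h], Or.inl rfl, Or.inr rfl, ?_, fun δ => ?_, h2⟩
    · have hn := hW.1 i
      rw [h] at hn
      rintro rfl
      simpa using hn.of_append_right
    · simp [h1 δ]
  · obtain ⟨h1, h2⟩ := adj1 hW h
    refine ⟨i, b, a, 1, by simp [h], by simp [h], Or.inr rfl, Or.inl rfl, ?_, fun δ => ?_,
      fun δ η h3 h4 => h2 δ η (fun e h5 h6 => h3 e h6 h5) (by rw [add_comm, h4, add_comm])⟩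
    · have hn := hW.1 i
      rw [h] at hn
      rintro rfl
      simpa using hn.of_append_right
    · have : (1 + 1 : ZMod 2) = 0 := rfl
      simp [h1 δ, this]

lemma Same.trans {W : Fin 4 → List Pt} {δ η θ : Pt → X} {S T : Pt → Prop}
    (h1 : Same W δ η S) (h2 : Same W η θ T) : Same W δ θ (fun e => S e ∨ T e) :=
  ⟨fun j e he => (h2.1 j e fun h => he (Or.inr h)).trans (h1.1 j e fun h => he (Or.inl h)),
    fun j => (h2.2 j).trans (h1.2 j)⟩

lemma P_map {W : Fin 4 → List Pt} (σ : Equiv.Perm Pt) (η : Pt → X)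
    (h : ∀ i j, ∀ e ∈ W i, ∀ e' ∈ W j, σ e' = bar (σ e) →
      η e = F i j (pre η e (W i)) (pre η e' (W j))) (h2 : ∃ i, ((W i).map η).sum ≠ 0) :
    P (fun i => (W i).map σ) := by
  have h0 : (η ∘ σ.symm) ∘ σ = η := by funext e; simp
  refine ⟨η ∘ σ.symm, fun i j e0 he0 he1 => ?_, ?_⟩
  · obtain ⟨e, he, rfl⟩ := List.mem_map.1 he0
    obtain ⟨e', he', h3⟩ := List.mem_map.1 he1
    simp only []
    rw [← h3, pre_map σ σ.injective, pre_map σ σ.injective, h0, ← h i j e he e' he' h3]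
    simp
  · obtain ⟨i, hi⟩ := h2
    exact ⟨i, by rwa [List.map_map, h0]⟩

lemma P_filter {W : Fin 4 → List Pt} (k : Pt → Bool) (δ : Pt → X)
    (hδ : Cond W δ) (h2 : ∃ i, ((W i).map δ).sum ≠ 0)
    (hs : Same W δ (fun e => if k e then δ e else 0) (fun e => k e = false)) :
    P (fun i => (W i).filter k) := by
  have h0 : ∀ a, k a = false → (fun e => if k e then δ e else 0) a = 0 := fun a ha => by simp [ha]
  refine ⟨fun e => if k e then δ e else 0, fun i j e he he' => ?_, ?_⟩
  · obtain ⟨he, h3⟩ := List.mem_filter.1 he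
    obtain ⟨he', h4⟩ := List.mem_filter.1 he'
    simp only []
    rw [pre_filter k _ h0 _ h3, pre_filter k _ h0 _ h4, hs.1 _ _ (by simp [h3]),
      hs.1 _ _ (by simp [h4]), if_pos h3]
    exact hδ i j e he he'
  · obtain ⟨i, hi⟩ := h2
    exact ⟨i, by rwa [sum_filter k _ h0, hs.2]⟩

lemma P_of_filter {W : Fin 4 → List Pt} (k : Pt → Bool) (hk : ∀ e, k (bar e) = k e)
    (h : P (fun i => (W i).filter k))
    (hs : ∀ δ : Pt → X, (∀ a, k a = false → δ a = 0) → ∃ η : Pt → X,
      (∀ a, k a = true → η a = δ a) ∧ Same W δ η (fun e => k e = false) ∧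
      ∀ i j, ∀ e ∈ W i, bar e ∈ W j → k e = false →
        η e = F i j (pre η e (W i)) (pre η (bar e) (W j))) : P W := by
  obtain ⟨δ, hδ, i0, h2⟩ := h
  have h0 : ∀ a, k a = false → (fun e => if k e then δ e else 0) a = 0 := fun a ha => by simp [ha]
  have h1 : ∀ j, ∀ a ∈ (W j).filter k, (fun e => if k e then δ e else 0) a = δ a :=
    fun j a ha => by simp [(List.mem_filter.1 ha).2]
  obtain ⟨η, h3, h4, h5⟩ := hs _ h0
  refine ⟨η, fun i j e he he' => ?_, i0, ?_⟩
  · cases h6 : k e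
    · exact h5 i j e he he' h6
    · have h7 : k (bar e) = true := by rw [hk, h6]
      rw [h4.1 _ _ (by simp [h6]), h4.1 _ _ (by simp [h7]), ← pre_filter k _ h0 _ h6,
        ← pre_filter k _ h0 _ h7, pre_congr _ (h1 i), pre_congr _ (h1 j), h3 e h6, if_pos h6]
      exact hδ i j e (List.mem_filter.2 ⟨he, h6⟩) (List.mem_filter.2 ⟨he', h7⟩)
  · rwa [h4.2, ← sum_filter k _ h0, List.map_congr_left (h1 i0)]

lemma not_P {W : Fin 4 → List Pt} (hb : ∀ i, ∀ e ∈ W i, ∃ j, bar e ∈ W j) (h : ℕ → ℕ)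
    (hm : ∀ i, (W i).Pairwise fun a b => h a.1 < h b.1) : ¬ P W := by
  rintro ⟨δ, hδ, i0, h2⟩
  have key : ∀ m i, ∀ e ∈ W i, h e.1 = m → δ e = 0 := by
    intro m
    induction m using Nat.strong_induction_on with
    | _ m ih =>
      intro i e he hm'
      obtain ⟨j, hj⟩ := hb i e he
      rw [hδ i j e he hj, pre_zero δ e (hm i) he fun a ha h3 => ih _ (hm' ▸ h3) i a ha rfl,
        pre_zero δ (bar e) (hm j) hj fun a ha h3 => ih _ (hm' ▸ h3) j a ha rfl]
      simp [F]
  apply h2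
  rw [List.map_congr_left fun e he => key _ i0 e he rfl]
  simp

def W0 : Fin 4 → List Pt :=
  ![[(3, true), (0, true), (1, true)], [(0, false)], [(1, false), (2, true), (3, false)],
    [(2, false)]]

lemma P_W0 : P W0 := by
  refine ⟨fun e => if e.1 = 0 ∨ e.1 = 2 then (1, 0) else if e = (3, true) ∨ e = (1, false)
    then (0, 1) else 0, ?_, 1, by decide⟩
  unfold Cond
  decide

end Pool.Agent.H.MP_a283c1_gt
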